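import Pool.Agent.Lib.MP_361a6f_ag.FL.O.H54.Rate
import Pool.Agent.Lib.MP_361a6f_ag.FL.O.Trq
import Pool.Agent.Lib.MP_361a6f_ag.FL.O.T2

/-!
# The rate of the one per cent law

If there is a numerically trivial element of length `r`, the rank of `ψ` in length `n` is at most
`C n^(-1/2)` times the dimension of the complex span, for all `n`; `C` depends only on `r` and the
dimension.
-/

open Filter Topology MeasureTheory Module

set_option autoImplicit false

namespace Pool.Agent.Lib.MP_361a6f_ag.FL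

namespace O54

open OL T2A OTrq

/-- **T2 with rate**, abstract form. -/
def T2R : Prop :=
  ∀ (d r : ℕ), ∃ C : ℝ, 0 < C ∧
    ∀ {I Λ : Type} [Fintype I] [DecidableEq I] [DecidableEq Λ] {D : Dat I Λ}
      {At : (L : ℕ) → Ten I L → Prop} (_ : Fintype.card I = d) (_ : ASys D At)
      (_ : ∃ u ∈ RA At 1, ∃ w ∈ RA At 1, psiT D u w ≠ 0) (_ : ∃ z ∈ numA D At r, z ≠ 0)
      (n : ℕ), Real.sqrt n * (rkA D At n : ℝ) ≤ C * Module.finrank ℂ (CA At n)

section trq

variable {I Λ β : Type} [Fintype I] [DecidableEq I] [DecidableEq Λ] [Fintype β] {lb : β → ℕ}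
  {D : Dat I Λ} {b : Tup I lb}

theorem fro_hs (y : Matrix I I ℂ) : fro (y - 1) = Exp18.hs y ^ 2 := by
  rw [Exp18.hs_sq]
  rfl

/-- the trace bound with the constant `2` for all lengths `l` with `(4 l A)² ≤ n` -/
theorem trqAt (a1 : Alg1) (d : ℕ) (hd : 0 < d) : ∃ A : ℕ, 1 ≤ A ∧
    ∀ {I Λ : Type} [Fintype I] [DecidableEq I] [DecidableEq Λ] (D : Dat I Λ),
      Fintype.card I = d → ∀ l n : ℕ, A ^ 2 ≤ n → (4 * l * A) ^ 2 ≤ n → TrqAt a1 D 2 l n := by
  obtain ⟨A, hA1, hA⟩ := rate d hd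
  refine ⟨A, hA1, ?_⟩
  intro I Λ _ _ _ D hI l n hn hl β _ lb b H v hv hvf c hc
  have hu : ∀ x, (H.mat x).conjTranspose * H.mat x = 1 := fun x => (H.mem x).1.2
  have htr : ∀ x : H.K, (H.mat x).trace = ((H.mat x).trace.re : ℂ) := fun x =>
    OL.trace_eq_re (H.mem x).1
  have hct : Continuous fun x : H.K => (H.mat x).trace := H.cont_mat.matrix_trace
  have hcw : Continuous fun x : H.K => hT c (gT (H.mat x) c) := by
    have h1 : Continuous fun x : H.K => gT (H.mat x) c :=
      a1.gT_cont.comp (H.cont_mat.prodMk continuous_const)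
    unfold hT
    refine continuous_finsetSum _ fun w _ => continuous_const.mul ?_
    exact Complex.continuous_conj.comp ((continuous_apply w).comp h1)
  have hfix : ∀ x, 2 - (d : ℝ) ≤ (H.mat x).trace.re := by
    intro x
    have := Exp18.le_trace (hu x) hv (hvf x)
    rw [hI] at this
    linarith
  have hn0 : 0 < n := lt_of_lt_of_le (by positivity) hn
  have hnR : (0 : ℝ) < n := by exact_mod_cast hn0
  have key := hA hI H.mat H.cont_mat hu H.μ hfix n hn (fun x => hT c (gT (H.mat x) c))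
    hcw.aestronglyMeasurable (fun x => coef_two a1 hc (hu x)) (by
      intro x hx
      have h1 := coef_sub a1 hc (hu x)
      have h0 := Exp18.hs_nonneg (H.mat x)
      rw [fro_hs] at hx
      have hlR : (4 * (l : ℝ) * A) ^ 2 ≤ n := by exact_mod_cast hl
      have hAR : (1 : ℝ) ≤ A := by exact_mod_cast hA1
      set s : ℝ := Exp18.hs (H.mat x) with hs'
      have h2 : (4 * ((l : ℝ) * s)) ^ 2 ≤ 1 := by
        have e1 : (4 * ((l : ℝ) * s)) ^ 2 * ((A : ℝ) ^ 2) = (4 * (l : ℝ) * A) ^ 2 * s ^ 2 := by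
          ring
        have e2 : (4 * (l : ℝ) * A) ^ 2 * s ^ 2 ≤ n * s ^ 2 :=
          mul_le_mul_of_nonneg_right hlR (by positivity)
        have e4 : (4 * ((l : ℝ) * s)) ^ 2 * ((A : ℝ) ^ 2) ≤ 1 * (A : ℝ) ^ 2 := by
          rw [e1, one_mul]; exact e2.trans hx
        exact le_of_mul_le_mul_right e4 (by positivity)
      have h3 : 4 * ((l : ℝ) * s) ≤ 1 := by
        have h0' : 0 ≤ 4 * ((l : ℝ) * s) := by positivity
        nlinarith
      linarith)
  have hN := OL.finrank_fixS H a1 n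
  have hNre : ∫ x, (H.mat x).trace.re ^ n ∂H.μ = (Module.finrank ℂ (OL.fixS H a1 n) : ℝ) := by
    have h1 : ∫ x, (H.mat x).trace ^ n ∂H.μ =
        ((∫ x, (H.mat x).trace.re ^ n ∂H.μ : ℝ) : ℂ) := by
      rw [← integral_complex_ofReal]
      refine integral_congr_ae (Eventually.of_forall fun x => ?_)
      show (H.mat x).trace ^ n = (((H.mat x).trace.re ^ n : ℝ) : ℂ)
      rw [Complex.ofReal_pow, ← htr]
    rw [h1] at hN
    exact_mod_cast hN.symm
  have hW : ∫ x, hT c (gT (H.mat x) c) * (((H.mat x).trace.re ^ n : ℝ) : ℂ) ∂H.μ =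
      ∫ x, hT c (gT (H.mat x) c) * (H.mat x).trace ^ n ∂H.μ := by
    refine integral_congr_ae (Eventually.of_forall fun x => ?_)
    show hT c (gT (H.mat x) c) * (((H.mat x).trace.re ^ n : ℝ) : ℂ) =
      hT c (gT (H.mat x) c) * (H.mat x).trace ^ n
    rw [Complex.ofReal_pow, ← htr]
  have h2 := key.2
  rw [hNre, hW] at h2
  linarith

/-- length `0` -/
theorem trqAt_zero (a1 : Alg1) {I Λ : Type} [Fintype I] [DecidableEq I] [DecidableEq Λ]
    (D : Dat I Λ) (n : ℕ) : TrqAt a1 D 1 0 n := by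
  intro β _ lb b H v hv hvf c hc
  have h1 : ∀ x, hT c (gT (H.mat x) c) = 1 := by
    intro x
    have h2 := coef_sub a1 hc (H.mem x).1.2
    rw [Nat.cast_zero, zero_mul] at h2
    have h3 : hT c (gT (H.mat x) c) - 1 = 0 := norm_le_zero_iff.1 h2
    exact sub_eq_zero.1 h3
  simp only [h1, one_mul]
  rw [← OL.finrank_fixS H a1 n, Complex.norm_natCast]

end trq

theorem t2r (a1 : Alg1) (a2 : Alg2) (ab : AlgB) (cpt : CptbStatement) (mn : MinbStatement)
    (l1 : L1bStatement) (l2 : L2bStatement) : T2R := by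
  intro d r
  rcases Nat.eq_zero_or_pos d with rfl | hd
  · refine ⟨1, one_pos, ?_⟩
    intro I Λ _ _ _ D At hI S hu hz n
    exfalso
    obtain ⟨u, -, w, -, huw⟩ := hu
    have : IsEmpty I := Fintype.card_eq_zero_iff.1 hI
    apply huw
    unfold psiT
    exact Finset.sum_eq_zero fun w' _ => (this.false (w' 0)).elim
  obtain ⟨A, hA1, hA⟩ := trqAt a1 d hd
  obtain ⟨C, hC, hcount⟩ := rate_count (4 * r * A + 1) (A ^ 2) (by omega)
  refine ⟨C, hC, ?_⟩
  intro I Λ _ _ _ D At hI S hu hz n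
  obtain ⟨z, hz, hz0⟩ := hz
  have h1 := core a1 a2 ab cpt mn l1 l2 S hu hz hz0 (K := 1) (by norm_num) 1 n
    (fun j hj => by
      obtain rfl : j = 0 := by omega
      rw [Nat.mul_zero]
      exact trqAt_zero a1 D n)
  rw [Nat.cast_one, one_mul, one_mul] at h1
  rcases Nat.eq_zero_or_pos n with rfl | hn
  · rw [Nat.cast_zero, Real.sqrt_zero, zero_mul]
    positivity
  have h2 := hcount n (rkA D At n) (finrank ℂ (CA At n)) hn (Nat.cast_nonneg _) h1
    (fun hn' J hJ => by
      have h3 := core a1 a2 ab cpt mn l1 l2 S hu hz hz0 (K := 2) (by norm_num) J n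
        (fun j hj => hA D hI (r * j) n hn' (le_trans (Nat.pow_le_pow_left (by
          calc 4 * (r * j) * A = 4 * r * A * j := by ring
            _ ≤ 4 * r * A * J := Nat.mul_le_mul_left _ hj.le
            _ ≤ (4 * r * A + 1) * J := Nat.mul_le_mul_right _ (Nat.le_succ _)) 2) hJ))
      linarith)
  have hs : 0 < Real.sqrt n := Real.sqrt_pos.2 (by exact_mod_cast hn)
  calc Real.sqrt n * (rkA D At n : ℝ) ≤
      Real.sqrt n * (C / Real.sqrt n * finrank ℂ (CA At n)) :=
        mul_le_mul_of_nonneg_left h2 hs.le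
    _ = C * finrank ℂ (CA At n) := by field_simp

end O54

end Pool.Agent.Lib.MP_361a6f_ag.FL
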