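import Mathlib

/-!
# Doubling for the Haar measure of a compact group of unitary matrices

`B(η)` is the set of the `x` whose matrix is at distance at most `η` from `1` (sum of squares of
the entries). Then `μ(B(Rη)) ≤ (4dR + 1)^(2d²) μ(B(η))`, uniformly in the group.
-/

open MeasureTheory

namespace Pool.Agent.Lib.MP_361a6f_ag.FL.O54

noncomputable section

variable {I : Type} [Fintype I] [DecidableEq I]

/-- the sum of the squares of the absolute values of the entries -/
def fro (M : Matrix I I ℂ) : ℝ := ∑ i, ∑ j, ‖M i j‖ ^ 2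

theorem fro_nonneg (M : Matrix I I ℂ) : 0 ≤ fro M :=
  Finset.sum_nonneg fun _ _ => Finset.sum_nonneg fun _ _ => by positivity

theorem entry_le (M : Matrix I I ℂ) (i j : I) : ‖M i j‖ ^ 2 ≤ fro M := by
  have h1 : ‖M i j‖ ^ 2 ≤ ∑ j, ‖M i j‖ ^ 2 :=
    Finset.single_le_sum (f := fun j => ‖M i j‖ ^ 2) (fun _ _ => by positivity)
      (Finset.mem_univ j)
  have h2 : ∑ j, ‖M i j‖ ^ 2 ≤ fro M :=
    Finset.single_le_sum (f := fun i => ∑ j, ‖M i j‖ ^ 2)
      (fun _ _ => Finset.sum_nonneg fun _ _ => by positivity) (Finset.mem_univ i)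
  exact h1.trans h2

theorem fro_eq_trace (M : Matrix I I ℂ) : (fro M : ℂ) = (M.conjTranspose * M).trace := by
  unfold fro
  simp only [Matrix.trace, Matrix.diag, Matrix.mul_apply, Matrix.conjTranspose_apply]
  rw [Finset.sum_comm]
  push_cast
  refine Finset.sum_congr rfl fun i _ => Finset.sum_congr rfl fun j _ => ?_
  rw [Complex.star_def, ← Complex.normSq_eq_conj_mul_self, Complex.normSq_eq_norm_sq]
  push_cast
  rfl

theorem fro_mul_unitary (U M : Matrix I I ℂ) (hU : U.conjTranspose * U = 1) :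
    fro (U * M) = fro M := by
  have h : (fro (U * M) : ℂ) = (fro M : ℂ) := by
    rw [fro_eq_trace, fro_eq_trace, Matrix.conjTranspose_mul, Matrix.mul_assoc,
      ← Matrix.mul_assoc U.conjTranspose, hU, Matrix.one_mul]
  exact_mod_cast h

/-- the real coordinates of a matrix -/
def crd (M : Matrix I I ℂ) : I × I × Bool → ℝ := fun t =>
  if t.2.2 then (M t.1 t.2.1).re else (M t.1 t.2.1).im

theorem crd_sub (M N : Matrix I I ℂ) (t : I × I × Bool) :
    crd (M - N) t = crd M t - crd N t := by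
  unfold crd
  split_ifs <;> simp

theorem crd_le (M : Matrix I I ℂ) (t : I × I × Bool) (r : ℝ) (hr : 0 ≤ r) (h : fro M ≤ r ^ 2) :
    |crd M t| ≤ r := by
  have h1 : ‖M t.1 t.2.1‖ ≤ r := by
    have := (entry_le M t.1 t.2.1).trans h
    exact (sq_le_sq₀ (norm_nonneg _) hr).1 this
  unfold crd
  split_ifs
  · exact (Complex.abs_re_le_norm _).trans h1
  · exact (Complex.abs_im_le_norm _).trans h1

theorem fro_le_of_crd (M : Matrix I I ℂ) (h : ℝ) (hM : ∀ t, |crd M t| ≤ h) :
    fro M ≤ 2 * (Fintype.card I : ℝ) ^ 2 * h ^ 2 := by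
  unfold fro
  have h1 : ∀ i j, ‖M i j‖ ^ 2 ≤ 2 * h ^ 2 := by
    intro i j
    have ha : |(M i j).re| ≤ h := by simpa [crd] using hM (i, j, true)
    have hb : |(M i j).im| ≤ h := by simpa [crd] using hM (i, j, false)
    have ha2 : (M i j).re ^ 2 ≤ h ^ 2 := by
      rw [← sq_abs]; exact pow_le_pow_left₀ (abs_nonneg _) ha 2
    have hb2 : (M i j).im ^ 2 ≤ h ^ 2 := by
      rw [← sq_abs]; exact pow_le_pow_left₀ (abs_nonneg _) hb 2
    have hc : ‖M i j‖ ^ 2 = (M i j).re ^ 2 + (M i j).im ^ 2 := by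
      rw [← Complex.normSq_eq_norm_sq, Complex.normSq_apply]; ring
    rw [hc]; linarith
  calc ∑ i, ∑ j, ‖M i j‖ ^ 2 ≤ ∑ _i : I, ∑ _j : I, 2 * h ^ 2 :=
        Finset.sum_le_sum fun i _ => Finset.sum_le_sum fun j _ => h1 i j
    _ = 2 * (Fintype.card I : ℝ) ^ 2 * h ^ 2 := by
        simp only [Finset.sum_const, Finset.card_univ, nsmul_eq_mul]
        ring

variable {K : Type} [Group K] [TopologicalSpace K] [IsTopologicalGroup K] [MeasurableSpace K]
  [BorelSpace K]

/-- **Doubling**, uniform in the group. -/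
theorem doubling (mat : K →* Matrix I I ℂ) (hu : ∀ x, (mat x).conjTranspose * mat x = 1)
    (μ : Measure K) [μ.IsMulLeftInvariant] (η : ℝ) (hη : 0 < η) (R : ℕ) :
    μ {x | fro (mat x - 1) ≤ (R * η) ^ 2} ≤
      ((4 * Fintype.card I * R + 1) ^ (2 * Fintype.card I ^ 2) : ℕ) *
        μ {x | fro (mat x - 1) ≤ η ^ 2} := by
  classical
  rcases isEmpty_or_nonempty I with hI | hI
  · have h0 : ∀ x : K, fro (mat x - 1) = 0 := by
      intro x; unfold fro; simp
    have e1 : {x : K | fro (mat x - 1) ≤ (R * η) ^ 2} = Set.univ := by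
      ext x; simp only [Set.mem_setOf_eq, Set.mem_univ, iff_true, h0]; positivity
    have e2 : {x : K | fro (mat x - 1) ≤ η ^ 2} = Set.univ := by
      ext x; simp only [Set.mem_setOf_eq, Set.mem_univ, iff_true, h0]; positivity
    rw [e1, e2]
    simp
  set d : ℕ := Fintype.card I with hd
  have hdpos : 0 < d := Fintype.card_pos
  have hdR : (0 : ℝ) < (d : ℝ) := by exact_mod_cast hdpos
  set h : ℝ := η / (2 * d) with hh
  have hhpos : 0 < h := by positivity
  let F : K → (I × I × Bool → ℤ) := fun x t => ⌊crd (mat x - 1) t / h⌋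
  let N : ℤ := 2 * d * R
  let T : Finset (I × I × Bool → ℤ) := Fintype.piFinset fun _ => Finset.Icc (-N) N
  have hcard : T.card = (4 * d * R + 1) ^ (2 * d ^ 2) := by
    simp only [T, Fintype.card_piFinset, Int.card_Icc, Finset.prod_const, Finset.card_univ,
      Fintype.card_prod, Fintype.card_bool]
    have e1 : (N + 1 - -N).toNat = 4 * d * R + 1 := by
      have : N + 1 - -N = ((4 * d * R + 1 : ℕ) : ℤ) := by
        simp only [N]; push_cast; ring
      rw [this, Int.toNat_natCast]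
    rw [e1]
    congr 1
    rw [← hd]; ring
  have hcov : {x : K | fro (mat x - 1) ≤ (R * η) ^ 2} ⊆
      ⋃ c ∈ T, {x : K | F x = c} := by
    intro x hx
    simp only [Set.mem_iUnion]
    refine ⟨F x, ?_, rfl⟩
    simp only [T, Fintype.mem_piFinset, Finset.mem_Icc]
    intro t
    have hb : |crd (mat x - 1) t| ≤ R * η := crd_le _ t _ (by positivity) hx
    have hb2 : |crd (mat x - 1) t / h| ≤ 2 * d * R := by
      rw [abs_div, abs_of_pos hhpos, div_le_iff₀ hhpos, hh]
      have : 2 * (d : ℝ) * R * (η / (2 * d)) = R * η := by field_simp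
      rw [this]; exact hb
    rw [abs_le] at hb2
    constructor
    · rw [Int.le_floor]
      simp only [N]; push_cast; exact hb2.1
    · have h3 : (⌊crd (mat x - 1) t / h⌋ : ℝ) ≤ 2 * d * R := (Int.floor_le _).trans hb2.2
      have h4 : ((⌊crd (mat x - 1) t / h⌋ : ℤ) : ℝ) ≤ ((N : ℤ) : ℝ) := by
        simp only [N]; push_cast; exact h3
      exact_mod_cast h4
  have hcell : ∀ c ∈ T, μ {x : K | F x = c} ≤ μ {x : K | fro (mat x - 1) ≤ η ^ 2} := by
    intro c _
    rcases Set.eq_empty_or_nonempty {x : K | F x = c} with he | ⟨x₀, hx₀⟩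
    · rw [he]; simp
    · have hsub : {x : K | F x = c} ⊆
          (fun x => x₀⁻¹ * x) ⁻¹' {x : K | fro (mat x - 1) ≤ η ^ 2} := by
        intro x hx
        simp only [Set.mem_preimage, Set.mem_setOf_eq]
        have e0 : mat x₀ * (mat (x₀⁻¹ * x) - 1) = mat x - mat x₀ := by
          rw [Matrix.mul_sub, Matrix.mul_one, ← map_mul, mul_inv_cancel_left]
        rw [← fro_mul_unitary (mat x₀) (mat (x₀⁻¹ * x) - 1) (hu x₀), e0]
        have hcr : ∀ t, |crd (mat x - mat x₀) t| ≤ h := by
          intro t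
          have e1 : crd (mat x - mat x₀) t = crd (mat x - 1) t - crd (mat x₀ - 1) t := by
            rw [← crd_sub]; congr 1; abel
          have e2 : ⌊crd (mat x - 1) t / h⌋ = ⌊crd (mat x₀ - 1) t / h⌋ := by
            have a1 : F x = c := hx
            have a2 : F x₀ = c := hx₀
            have a3 : F x t = F x₀ t := by rw [a1, a2]
            exact a3
          have e3 := Int.abs_sub_lt_one_of_floor_eq_floor e2
          rw [← sub_div, abs_div, abs_of_pos hhpos, div_lt_iff₀ hhpos, one_mul] at e3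
          rw [e1]; exact e3.le
        refine (fro_le_of_crd _ h hcr).trans ?_
        rw [← hd, hh]
        have : 2 * (d : ℝ) ^ 2 * (η / (2 * d)) ^ 2 = η ^ 2 / 2 := by field_simp
        rw [this]
        have : 0 ≤ η ^ 2 := by positivity
        linarith
      calc μ {x : K | F x = c} ≤
          μ ((fun x => x₀⁻¹ * x) ⁻¹' {x : K | fro (mat x - 1) ≤ η ^ 2}) := measure_mono hsub
        _ = μ {x : K | fro (mat x - 1) ≤ η ^ 2} := measure_preimage_mul μ _ _
  calc μ {x | fro (mat x - 1) ≤ (R * η) ^ 2} ≤ μ (⋃ c ∈ T, {x : K | F x = c}) :=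
        measure_mono hcov
    _ ≤ ∑ c ∈ T, μ {x : K | F x = c} := measure_biUnion_finset_le _ _
    _ ≤ ∑ _c ∈ T, μ {x : K | fro (mat x - 1) ≤ η ^ 2} := Finset.sum_le_sum hcell
    _ = ((4 * d * R + 1) ^ (2 * d ^ 2) : ℕ) * μ {x | fro (mat x - 1) ≤ η ^ 2} := by
        rw [Finset.sum_const, hcard, nsmul_eq_mul]

end

end Pool.Agent.Lib.MP_361a6f_ag.FL.O54
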