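import Pool.Agent.Lib.MP_361a6f_ag.FL.O.H54.Dbl

/-!
# Powers of the trace of a compact group of unitary matrices, at the scale `n^(-1/2)`

For unitary `x` of size `d` with `Re tr x ≥ 2 - d` the integral of `w · (Re tr)^n` is at least half
of the integral of `(Re tr)^n`, if `|w - 1| ≤ 1/4` where `n |x - 1|² ≤ A²` and `|w - 1| ≤ 2`
everywhere; `A` depends only on `d`.
-/

open MeasureTheory Filter Topology

namespace Pool.Agent.Lib.MP_361a6f_ag.FL.O54

noncomputable section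

/-- the weight of the `k`-th shell -/
def shl (d k : ℕ) : ℝ :=
  Real.exp (-((k : ℝ) ^ 2 / (2 * (d : ℝ) ^ 2))) * (4 * d * ((k : ℝ) + 1) + 1) ^ (2 * d ^ 2)

theorem shl_nonneg (d k : ℕ) : 0 ≤ shl d k := by
  unfold shl; positivity

theorem shl_summable (d : ℕ) (hd : 0 < d) : Summable (shl d) := by
  have hd' : (0 : ℝ) < d := by exact_mod_cast hd
  have hr : (0 : ℝ) < 1 / (2 * (d : ℝ) ^ 2) := by positivity
  have h1 := (summable_nat_add_iff 1).2
    (Real.summable_pow_mul_exp_neg_nat_mul (2 * d ^ 2) hr)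
  have h2 := h1.mul_left ((4 * (d : ℝ) + 1) ^ (2 * d ^ 2) * Real.exp (1 / (2 * (d : ℝ) ^ 2)))
  refine Summable.of_nonneg_of_le (shl_nonneg d) (fun k => ?_) h2
  unfold shl
  have hk : (0 : ℝ) ≤ k := by positivity
  have hk2 : (k : ℝ) ≤ (k : ℝ) ^ 2 := by
    have : (k : ℕ) ≤ k ^ 2 := by nlinarith [Nat.zero_le k, sq_nonneg (k : ℤ), Nat.le_self_pow (n := 2) (by norm_num) k]
    exact_mod_cast this
  have e1 : Real.exp (-((k : ℝ) ^ 2 / (2 * (d : ℝ) ^ 2))) ≤
      Real.exp (1 / (2 * (d : ℝ) ^ 2)) *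
        Real.exp (-(1 / (2 * (d : ℝ) ^ 2)) * ((k + 1 : ℕ) : ℝ)) := by
    rw [← Real.exp_add]
    apply Real.exp_le_exp.2
    push_cast
    have : (k : ℝ) * (1 / (2 * (d : ℝ) ^ 2)) ≤ (k : ℝ) ^ 2 * (1 / (2 * (d : ℝ) ^ 2)) :=
      mul_le_mul_of_nonneg_right hk2 hr.le
    have e0 : (k : ℝ) ^ 2 / (2 * (d : ℝ) ^ 2) = (k : ℝ) ^ 2 * (1 / (2 * (d : ℝ) ^ 2)) := by ring
    rw [e0]; linarith
  have e2 : (4 * (d : ℝ) * ((k : ℝ) + 1) + 1) ^ (2 * d ^ 2) ≤
      (4 * (d : ℝ) + 1) ^ (2 * d ^ 2) * (((k + 1 : ℕ) : ℝ)) ^ (2 * d ^ 2) := by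
    rw [← mul_pow]
    apply pow_le_pow_left₀ (by positivity)
    push_cast
    nlinarith
  calc Real.exp (-((k : ℝ) ^ 2 / (2 * (d : ℝ) ^ 2))) *
        (4 * d * ((k : ℝ) + 1) + 1) ^ (2 * d ^ 2) ≤
      (Real.exp (1 / (2 * (d : ℝ) ^ 2)) *
        Real.exp (-(1 / (2 * (d : ℝ) ^ 2)) * ((k + 1 : ℕ) : ℝ))) *
      ((4 * (d : ℝ) + 1) ^ (2 * d ^ 2) * (((k + 1 : ℕ) : ℝ)) ^ (2 * d ^ 2)) :=
        mul_le_mul e1 e2 (by positivity) (by positivity)
    _ = _ := by ring

theorem exists_tail (d : ℕ) (hd : 0 < d) (δ : ℝ) (hδ : 0 < δ) :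
    ∃ A : ℕ, 1 ≤ A ∧ ∀ N, ∑ k ∈ Finset.Ico A N, shl d k ≤ δ := by
  have h1 := tendsto_sum_nat_add (shl d)
  have h2 : ∀ᶠ i in atTop, (∑' k, shl d (k + i)) < δ := h1.eventually_lt_const hδ
  obtain ⟨A, hA⟩ := (h2.and (eventually_ge_atTop 1)).exists
  refine ⟨A, hA.2, fun N => ?_⟩
  rw [Finset.sum_Ico_eq_sum_range]
  have h3 : Summable fun k => shl d (k + A) := (summable_nat_add_iff A).2 (shl_summable d hd)
  have h4 : ∑ k ∈ Finset.range (N - A), shl d (k + A) ≤ ∑' k, shl d (k + A) :=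
    h3.sum_le_tsum _ fun i _ => shl_nonneg d _
  calc ∑ k ∈ Finset.range (N - A), shl d (A + k) =
      ∑ k ∈ Finset.range (N - A), shl d (k + A) :=
        Finset.sum_congr rfl fun k _ => by rw [add_comm]
    _ ≤ _ := h4
    _ ≤ δ := hA.1.le

variable {I : Type} [Fintype I] [DecidableEq I]

/-- the distance to `1` and the trace -/
theorem fro_sub_one (U : Matrix I I ℂ) (hU : U.conjTranspose * U = 1) :
    fro (U - 1) = 2 * (Fintype.card I : ℝ) - 2 * U.trace.re := by
  have h : (fro (U - 1) : ℂ) = ((2 * (Fintype.card I : ℝ) - 2 * U.trace.re : ℝ) : ℂ) := by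
    rw [fro_eq_trace, Matrix.conjTranspose_sub, Matrix.conjTranspose_one, Matrix.sub_mul,
      Matrix.mul_sub, Matrix.mul_sub, hU, Matrix.mul_one, Matrix.one_mul, Matrix.one_mul,
      Matrix.trace_sub, Matrix.trace_sub, Matrix.trace_sub, Matrix.trace_one,
      Matrix.trace_conjTranspose]
    apply Complex.ext
    · simp; ring
    · simp
  exact_mod_cast h

theorem continuous_fro {K : Type} [TopologicalSpace K] (mat : K → Matrix I I ℂ)
    (hc : Continuous mat) : Continuous fun x => fro (mat x - 1) := by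
  unfold fro
  have h : ∀ i j, Continuous fun x => (mat x - 1) i j := fun i j =>
    (continuous_apply j).comp ((continuous_apply i).comp (hc.sub continuous_const))
  exact continuous_finset_sum _ fun i _ => continuous_finset_sum _ fun j _ => ((h i j).norm).pow 2

/-- the size of the trace in terms of the distance to `1` -/
theorem abs_chi_le (d : ℕ) (hd : 0 < d) (c f : ℝ) (hf : f = 2 * d - 2 * c) (h1 : 2 - (d : ℝ) ≤ c)
    (h0 : 0 ≤ f) : |c| ≤ d * Real.exp (-(f / (2 * (d : ℝ) ^ 2))) := by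
  have hd1 : (1 : ℝ) ≤ d := by exact_mod_cast hd
  have hd0 : (0 : ℝ) < d := by linarith
  rcases le_or_gt 0 c with hc | hc
  · rw [abs_of_nonneg hc]
    have e1 : c = d * (1 - f / (2 * d)) := by rw [hf]; field_simp; ring
    have e2 : 1 - f / (2 * d) ≤ Real.exp (-(f / (2 * d))) := by
      have := Real.add_one_le_exp (-(f / (2 * (d : ℝ)))); linarith
    have e3 : Real.exp (-(f / (2 * d))) ≤ Real.exp (-(f / (2 * (d : ℝ) ^ 2))) := by
      apply Real.exp_le_exp.2
      apply neg_le_neg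
      apply div_le_div_of_nonneg_left h0 (by positivity)
      nlinarith
    calc c = d * (1 - f / (2 * d)) := e1
      _ ≤ d * Real.exp (-(f / (2 * (d : ℝ) ^ 2))) :=
        mul_le_mul_of_nonneg_left (e2.trans e3) hd0.le
  · rw [abs_of_neg hc]
    have e1 : -c ≤ d * (1 - 2 / d) := by
      have : (d : ℝ) * (1 - 2 / d) = d - 2 := by field_simp
      rw [this]; linarith
    have e2 : 1 - 2 / (d : ℝ) ≤ Real.exp (-(2 / d)) := by
      have := Real.add_one_le_exp (-(2 / (d : ℝ))); linarith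
    have e3 : Real.exp (-(2 / (d : ℝ))) ≤ Real.exp (-(f / (2 * (d : ℝ) ^ 2))) := by
      apply Real.exp_le_exp.2
      apply neg_le_neg
      rw [div_le_div_iff₀ (by positivity) (by positivity)]
      have : f ≤ 4 * d - 4 := by rw [hf]; linarith
      nlinarith
    exact e1.trans (mul_le_mul_of_nonneg_left (e2.trans e3) hd0.le)

theorem rate (d : ℕ) (hd : 0 < d) : ∃ A : ℕ, 1 ≤ A ∧
    ∀ {I : Type} [Fintype I] [DecidableEq I], Fintype.card I = d →
    ∀ {K : Type} [Group K] [TopologicalSpace K] [IsTopologicalGroup K] [MeasurableSpace K]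
      [BorelSpace K] (mat : K →* Matrix I I ℂ), Continuous mat →
      (∀ x, (mat x).conjTranspose * mat x = 1) →
      ∀ (μ : Measure K) [IsProbabilityMeasure μ] [μ.IsMulLeftInvariant],
      (∀ x, 2 - (d : ℝ) ≤ (mat x).trace.re) → ∀ n : ℕ, A ^ 2 ≤ n →
      ∀ w : K → ℂ, AEStronglyMeasurable w μ → (∀ x, ‖w x - 1‖ ≤ 2) →
      (∀ x, (n : ℝ) * fro (mat x - 1) ≤ (A : ℝ) ^ 2 → ‖w x - 1‖ ≤ 1 / 4) →
      0 < ∫ x, (mat x).trace.re ^ n ∂μ ∧
      (1 / 2) * ∫ x, (mat x).trace.re ^ n ∂μ ≤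
        ‖∫ x, w x * (((mat x).trace.re ^ n : ℝ) : ℂ) ∂μ‖ := by
  obtain ⟨A, hA1, hA⟩ := exists_tail d hd (1 / 40) (by norm_num)
  refine ⟨A, hA1, ?_⟩
  intro I _ _ hI K _ _ _ _ _ mat hc hu μ _ _ hfix n hn w hw hw2 hw4
  have hd1 : (1 : ℝ) ≤ d := by exact_mod_cast hd
  have hd0 : (0 : ℝ) < d := by linarith
  have hn0 : 0 < n := lt_of_lt_of_le (by positivity) hn
  have hnR : (0 : ℝ) < n := by exact_mod_cast hn0
  have hn1 : (1 : ℝ) ≤ n := by exact_mod_cast hn0
  have hAn : (A : ℝ) ^ 2 ≤ n := by exact_mod_cast hn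
  set f : K → ℝ := fun x => fro (mat x - 1) with hf
  set χ : K → ℝ := fun x => (mat x).trace.re with hχ
  have hfc : Continuous f := continuous_fro (fun x => mat x) hc
  have hfχ : ∀ x, f x = 2 * d - 2 * χ x := by
    intro x
    have := fro_sub_one (mat x) (hu x)
    rw [hI] at this
    exact this
  have hχf : ∀ x, χ x = d - f x / 2 := by intro x; rw [hfχ x]; ring
  have hχc : Continuous χ := by
    have : χ = fun x => d - f x / 2 := funext hχf
    rw [this]; exact continuous_const.sub (hfc.div_const 2)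
  have hf0 : ∀ x, 0 ≤ f x := fun x => fro_nonneg _
  have hf4 : ∀ x, f x ≤ 4 * d := by
    intro x; rw [hfχ x]; have := hfix x; simp only [hχ]; linarith
  have hχd : ∀ x, |χ x| ≤ d := by
    intro x
    have h1 := abs_chi_le d hd (χ x) (f x) (hfχ x) (hfix x) (hf0 x)
    have h2 : Real.exp (-(f x / (2 * (d : ℝ) ^ 2))) ≤ 1 := by
      apply Real.exp_le_one_iff.2
      have := hf0 x
      have : 0 ≤ f x / (2 * (d : ℝ) ^ 2) := by positivity
      linarith
    calc |χ x| ≤ _ := h1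
      _ ≤ d * 1 := mul_le_mul_of_nonneg_left h2 hd0.le
      _ = d := mul_one _
  -- the balls
  set η : ℝ := 1 / Real.sqrt n with hη
  have hηpos : 0 < η := by rw [hη]; positivity
  have hball : ∀ R : ℕ, {x : K | fro (mat x - 1) ≤ (R * η) ^ 2} = {x | (n : ℝ) * f x ≤ (R : ℝ) ^ 2} := by
    intro R
    ext x
    simp only [Set.mem_setOf_eq]
    have e : (R * η) ^ 2 = (R : ℝ) ^ 2 / n := by
      rw [hη, mul_pow, div_pow, one_pow, Real.sq_sqrt hnR.le]; ring
    rw [e, le_div_iff₀ hnR, mul_comm]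
  have hball1 : {x : K | fro (mat x - 1) ≤ η ^ 2} = {x | (n : ℝ) * f x ≤ 1} := by
    have := hball 1
    simpa using this
  set mB : ℝ := (μ {x | (n : ℝ) * f x ≤ 1}).toReal with hmB
  have hmB0 : 0 ≤ mB := ENNReal.toReal_nonneg
  have hdbl : ∀ R : ℕ, (μ {x | (n : ℝ) * f x ≤ (R : ℝ) ^ 2}).toReal ≤
      (4 * d * R + 1) ^ (2 * d ^ 2) * mB := by
    intro R
    have h1 := doubling mat hu μ η hηpos R
    rw [hball R, hball1, hI] at h1
    have h2 := ENNReal.toReal_mono
      (ENNReal.mul_ne_top (ENNReal.natCast_ne_top _) (measure_ne_top μ _)) h1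
    rw [ENNReal.toReal_mul, ENNReal.toReal_natCast] at h2
    push_cast at h2
    exact h2
  have hmBpos : 0 < mB := by
    obtain ⟨R, hR⟩ := exists_nat_ge ((n : ℝ) * (4 * d) + 1)
    have hR1 : (1 : ℝ) ≤ R := by
      have : (0 : ℝ) ≤ (n : ℝ) * (4 * d) := by positivity
      linarith
    have hu' : {x | (n : ℝ) * f x ≤ (R : ℝ) ^ 2} = Set.univ := by
      ext x
      simp only [Set.mem_setOf_eq, Set.mem_univ, iff_true]
      have h1 : (n : ℝ) * f x ≤ n * (4 * d) := mul_le_mul_of_nonneg_left (hf4 x) hnR.le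
      nlinarith
    have h2 := hdbl R
    rw [hu'] at h2
    simp only [measure_univ, ENNReal.toReal_one] at h2
    by_contra hcon
    have : mB = 0 := le_antisymm (not_lt.1 hcon) hmB0
    rw [this, mul_zero] at h2
    linarith
  have hcl : ∀ c : ℝ, MeasurableSet {x | (n : ℝ) * f x ≤ c} := fun c =>
    (isClosed_le (continuous_const.mul hfc) continuous_const).measurableSet
  set S : Set K := {x | (n : ℝ) * f x ≤ (A : ℝ) ^ 2} with hS
  have hSm : MeasurableSet S := hcl _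
  -- integrability
  have hbd : ∀ x, |χ x| ^ n ≤ (d : ℝ) ^ n := fun x => pow_le_pow_left₀ (abs_nonneg _) (hχd x) n
  have hmχ : AEStronglyMeasurable (fun x => χ x ^ n) μ := (hχc.pow n).aestronglyMeasurable
  have hmχa : AEStronglyMeasurable (fun x => |χ x| ^ n) μ :=
    (hχc.abs.pow n).aestronglyMeasurable
  have iχ : Integrable (fun x => χ x ^ n) μ := by
    refine Integrable.of_bound hmχ ((d : ℝ) ^ n) (Eventually.of_forall fun x => ?_)
    rw [Real.norm_eq_abs, abs_pow]; exact hbd x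
  have iχa : Integrable (fun x => |χ x| ^ n) μ := by
    refine Integrable.of_bound hmχa ((d : ℝ) ^ n) (Eventually.of_forall fun x => ?_)
    rw [Real.norm_eq_abs, abs_pow, abs_abs]; exact hbd x
  have iinn : Integrable (S.indicator fun x => χ x ^ n) μ := iχ.indicator hSm
  have iout : Integrable (Sᶜ.indicator fun x => |χ x| ^ n) μ := iχa.indicator hSm.compl
  set inn : ℝ := ∫ x, S.indicator (fun x => χ x ^ n) x ∂μ with hinn
  set out : ℝ := ∫ x, Sᶜ.indicator (fun x => |χ x| ^ n) x ∂μ with hout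
  -- the inside
  have hpos : ∀ x ∈ S, 0 ≤ χ x := by
    intro x hx
    have h1 : (n : ℝ) * f x ≤ n * 1 := by rw [mul_one]; exact le_trans hx hAn
    have h2 : f x ≤ 1 := le_of_mul_le_mul_left h1 hnR
    rw [hχf x]; linarith
  have hin : (d : ℝ) ^ n / 2 * mB ≤ inn := by
    have h1 : ∀ x, ({x | (n : ℝ) * f x ≤ 1}.indicator (fun _ => (d : ℝ) ^ n / 2)) x ≤
        S.indicator (fun x => χ x ^ n) x := by
      intro x
      by_cases hx : x ∈ {x | (n : ℝ) * f x ≤ 1}
      · have hxS : x ∈ S := by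
          have h2 : (n : ℝ) * f x ≤ 1 := hx
          have h3 : (1 : ℝ) ≤ (A : ℝ) ^ 2 := by
            have : (1 : ℝ) ≤ A := by exact_mod_cast hA1
            nlinarith
          exact h2.trans h3
        rw [Set.indicator_of_mem hx, Set.indicator_of_mem hxS]
        have h2 : (n : ℝ) * f x ≤ 1 := hx
        have h3 : f x ≤ 1 / n := by rw [le_div_iff₀ hnR, mul_comm]; exact h2
        have h4 : (d : ℝ) * (1 + -(1 / (2 * d * n))) ≤ χ x := by
          rw [hχf x]
          have : (d : ℝ) * (1 + -(1 / (2 * d * n))) = d - (1 / n) / 2 := by field_simp; ring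
          rw [this]; linarith
        have h5 : 1 + (n : ℝ) * (-(1 / (2 * d * n))) ≤ (1 + -(1 / (2 * (d : ℝ) * n))) ^ n := by
          apply one_add_mul_le_pow
          have : 1 / (2 * (d : ℝ) * n) ≤ 1 := by
            rw [div_le_one (by positivity)]; nlinarith
          linarith
        have h6 : 1 + (n : ℝ) * (-(1 / (2 * d * n))) = 1 - 1 / (2 * d) := by
          field_simp
          ring
        have h7 : 1 / (2 * (d : ℝ)) ≤ 1 / 2 := by
          apply div_le_div_of_nonneg_left (by norm_num) (by norm_num); linarith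
        have h8 : (1 : ℝ) / 2 ≤ (1 + -(1 / (2 * (d : ℝ) * n))) ^ n := by
          rw [h6] at h5; linarith
        have h9 : (0 : ℝ) ≤ 1 + -(1 / (2 * (d : ℝ) * n)) := by
          have : 1 / (2 * (d : ℝ) * n) ≤ 1 := by
            rw [div_le_one (by positivity)]; nlinarith
          linarith
        calc (d : ℝ) ^ n / 2 = (d : ℝ) ^ n * (1 / 2) := by ring
          _ ≤ (d : ℝ) ^ n * (1 + -(1 / (2 * (d : ℝ) * n))) ^ n :=
              mul_le_mul_of_nonneg_left h8 (by positivity)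
          _ = ((d : ℝ) * (1 + -(1 / (2 * (d : ℝ) * n)))) ^ n := by rw [mul_pow]
          _ ≤ χ x ^ n := pow_le_pow_left₀ (by positivity) h4 n
      · rw [Set.indicator_of_notMem hx]
        by_cases hxS : x ∈ S
        · rw [Set.indicator_of_mem hxS]; exact pow_nonneg (hpos x hxS) n
        · rw [Set.indicator_of_notMem hxS]
    have h2 : Integrable ({x | (n : ℝ) * f x ≤ 1}.indicator (fun _ => (d : ℝ) ^ n / 2)) μ :=
      (integrable_const _).indicator (hcl 1)
    have h3 := integral_mono h2 iinn h1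
    rw [integral_indicator_const _ (hcl 1), smul_eq_mul] at h3
    have h4 : μ.real {x | (n : ℝ) * f x ≤ 1} = mB := rfl
    rw [h4] at h3
    linarith
  -- the outside
  obtain ⟨N, hN⟩ := exists_nat_ge (Real.sqrt (n * (4 * d)) + 1)
  have hou : out ≤ (d : ℝ) ^ n * mB * (1 / 40) := by
    have h1 : ∀ x, Sᶜ.indicator (fun x => |χ x| ^ n) x ≤
        ∑ k ∈ Finset.Ico A N, ({x | (n : ℝ) * f x ≤ ((k + 1 : ℕ) : ℝ) ^ 2}.indicator
          (fun _ => (d : ℝ) ^ n * Real.exp (-((k : ℝ) ^ 2 / (2 * (d : ℝ) ^ 2))))) x := by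
      intro x
      by_cases hx : x ∈ S
      · rw [Set.indicator_of_notMem (by simpa using hx)]
        exact Finset.sum_nonneg fun k _ => Set.indicator_nonneg (fun _ _ => by positivity) _
      · rw [Set.indicator_of_mem (by simpa using hx)]
        have hx' : (A : ℝ) ^ 2 < n * f x := not_le.1 hx
        set s : ℝ := Real.sqrt (n * f x) with hs
        have hs2 : s ^ 2 = n * f x := Real.sq_sqrt (mul_nonneg hnR.le (hf0 x))
        have hs0 : 0 ≤ s := Real.sqrt_nonneg _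
        have hAs : (A : ℝ) ≤ s := by
          by_contra hcon
          have : s < A := not_le.1 hcon
          nlinarith
        set k : ℕ := ⌊s⌋₊ with hk
        have hk1 : (k : ℝ) ≤ s := Nat.floor_le hs0
        have hk2 : s < k + 1 := Nat.lt_floor_add_one s
        have hkA : A ≤ k := Nat.le_floor hAs
        have hkN : k < N := by
          have e1 : s ≤ Real.sqrt (n * (4 * d)) :=
            Real.sqrt_le_sqrt (mul_le_mul_of_nonneg_left (hf4 x) hnR.le)
          have e2 : (k : ℝ) < N := by linarith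
          exact_mod_cast e2
        have hmem : k ∈ Finset.Ico A N := Finset.mem_Ico.2 ⟨hkA, hkN⟩
        have hxk : x ∈ {x | (n : ℝ) * f x ≤ ((k + 1 : ℕ) : ℝ) ^ 2} := by
          simp only [Set.mem_setOf_eq]
          rw [← hs2]
          push_cast
          exact pow_le_pow_left₀ hs0 hk2.le 2
        have hterm : |χ x| ^ n ≤ ({x | (n : ℝ) * f x ≤ ((k + 1 : ℕ) : ℝ) ^ 2}.indicator
          (fun _ => (d : ℝ) ^ n * Real.exp (-((k : ℝ) ^ 2 / (2 * (d : ℝ) ^ 2))))) x := by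
          rw [Set.indicator_of_mem hxk]
          have e1 := abs_chi_le d hd (χ x) (f x) (hfχ x) (hfix x) (hf0 x)
          have e2 := pow_le_pow_left₀ (abs_nonneg _) e1 n
          rw [mul_pow, ← Real.exp_nat_mul] at e2
          refine e2.trans (mul_le_mul_of_nonneg_left ?_ (by positivity))
          apply Real.exp_le_exp.2
          have e3 : (n : ℝ) * -(f x / (2 * (d : ℝ) ^ 2)) = -(n * f x / (2 * (d : ℝ) ^ 2)) := by ring
          rw [e3]
          apply neg_le_neg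
          apply div_le_div_of_nonneg_right _ (by positivity)
          rw [← hs2]
          exact pow_le_pow_left₀ (by positivity) hk1 2
        exact hterm.trans (Finset.single_le_sum
          (f := fun k => ({x | (n : ℝ) * f x ≤ ((k + 1 : ℕ) : ℝ) ^ 2}.indicator
            (fun _ => (d : ℝ) ^ n * Real.exp (-((k : ℝ) ^ 2 / (2 * (d : ℝ) ^ 2))))) x)
          (fun k _ => Set.indicator_nonneg (fun _ _ => by positivity) _) hmem)
    have h2 : ∀ k ∈ Finset.Ico A N, Integrable ({x | (n : ℝ) * f x ≤ ((k + 1 : ℕ) : ℝ) ^ 2}.indicator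
          (fun _ => (d : ℝ) ^ n * Real.exp (-((k : ℝ) ^ 2 / (2 * (d : ℝ) ^ 2))))) μ := fun k _ =>
      (integrable_const _).indicator (hcl _)
    have h3 := integral_mono iout (integrable_finset_sum _ h2) h1
    rw [integral_finset_sum _ h2] at h3
    refine h3.trans ?_
    have h4 : ∀ k ∈ Finset.Ico A N,
        ∫ x, ({x | (n : ℝ) * f x ≤ ((k + 1 : ℕ) : ℝ) ^ 2}.indicator
          (fun _ => (d : ℝ) ^ n * Real.exp (-((k : ℝ) ^ 2 / (2 * (d : ℝ) ^ 2))))) x ∂μ ≤
        (d : ℝ) ^ n * mB * shl d k := by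
      intro k _
      rw [integral_indicator_const _ (hcl _), smul_eq_mul]
      have e1 : μ.real {x | (n : ℝ) * f x ≤ ((k + 1 : ℕ) : ℝ) ^ 2} ≤
        (4 * d * ((k + 1 : ℕ) : ℝ) + 1) ^ (2 * d ^ 2) * mB := hdbl (k + 1)
      have e2 : (0 : ℝ) ≤ (d : ℝ) ^ n * Real.exp (-((k : ℝ) ^ 2 / (2 * (d : ℝ) ^ 2))) := by
        positivity
      refine (mul_le_mul_of_nonneg_right e1 e2).trans (le_of_eq ?_)
      unfold shl
      push_cast
      ring
    refine (Finset.sum_le_sum h4).trans ?_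
    rw [← Finset.mul_sum]
    exact mul_le_mul_of_nonneg_left (hA N) (by positivity)
  have hinnpos : 0 < inn := lt_of_lt_of_le (by positivity) hin
  have hout0 : 0 ≤ out := integral_nonneg fun x => Set.indicator_nonneg (fun _ _ => by positivity) _
  have hio : out ≤ inn / 20 := by
    have : (d : ℝ) ^ n * mB * (1 / 40) = ((d : ℝ) ^ n / 2 * mB) / 20 := by ring
    rw [this] at hou
    linarith
  -- the whole integral
  have hlow : inn - out ≤ ∫ x, χ x ^ n ∂μ := by
    rw [hinn, hout, ← integral_sub iinn iout]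
    refine integral_mono (iinn.sub iout) iχ fun x => ?_
    by_cases hx : x ∈ S
    · simp only [Set.indicator_of_mem hx, Set.indicator_of_notMem
        (show x ∉ Sᶜ by simpa using hx), sub_zero]
      exact le_refl _
    · simp only [Set.indicator_of_notMem hx, Set.indicator_of_mem
        (show x ∈ Sᶜ by simpa using hx), zero_sub]
      rw [← abs_pow]
      exact neg_abs_le _
  have hwint : Integrable (fun x => w x * ((χ x ^ n : ℝ) : ℂ)) μ := by
    refine Integrable.of_bound ?_ (3 * (d : ℝ) ^ n) (Eventually.of_forall fun x => ?_)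
    · exact hw.mul (Complex.continuous_ofReal.comp (hχc.pow n)).aestronglyMeasurable
    · rw [norm_mul, Complex.norm_real, Real.norm_eq_abs, abs_pow]
      have e1 : ‖w x‖ ≤ 3 := by
        have : ‖w x‖ ≤ ‖w x - 1‖ + ‖(1 : ℂ)‖ := by
          have := norm_add_le (w x - 1) 1
          simpa using this
        have h2 := hw2 x
        simp only [norm_one] at this
        linarith
      exact mul_le_mul e1 (hbd x) (by positivity) (by norm_num)
  have hcint : Integrable (fun x => ((χ x ^ n : ℝ) : ℂ)) μ := iχ.ofReal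
  have hdiff : ‖(∫ x, w x * ((χ x ^ n : ℝ) : ℂ) ∂μ) - ∫ x, ((χ x ^ n : ℝ) : ℂ) ∂μ‖ ≤
      inn / 4 + 2 * out := by
    rw [← integral_sub hwint hcint]
    refine (norm_integral_le_integral_norm _).trans ?_
    have e0 : inn / 4 + 2 * out = ∫ x, ((1 / 4) * S.indicator (fun x => χ x ^ n) x +
        2 * Sᶜ.indicator (fun x => |χ x| ^ n) x) ∂μ := by
      rw [integral_add (iinn.const_mul _) (iout.const_mul _), integral_const_mul,
        integral_const_mul]
      ring
    rw [e0]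
    refine integral_mono (hwint.sub hcint).norm
      ((iinn.const_mul _).add (iout.const_mul _)) fun x => ?_
    have e1 : w x * ((χ x ^ n : ℝ) : ℂ) - ((χ x ^ n : ℝ) : ℂ) =
        (w x - 1) * ((χ x ^ n : ℝ) : ℂ) := by ring
    simp only [e1, norm_mul, Complex.norm_real, Real.norm_eq_abs, abs_pow]
    by_cases hx : x ∈ S
    · simp only [Set.indicator_of_mem hx, Set.indicator_of_notMem
        (show x ∉ Sᶜ by simpa using hx), mul_zero, add_zero]
      rw [abs_of_nonneg (hpos x hx)]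
      exact mul_le_mul_of_nonneg_right (hw4 x hx) (pow_nonneg (hpos x hx) n)
    · simp only [Set.indicator_of_notMem hx, Set.indicator_of_mem
        (show x ∈ Sᶜ by simpa using hx), mul_zero, zero_add]
      exact mul_le_mul_of_nonneg_right (hw2 x) (by positivity)
  have hre : (∫ x, ((χ x ^ n : ℝ) : ℂ) ∂μ) = ((∫ x, χ x ^ n ∂μ : ℝ) : ℂ) := integral_ofReal
  have hTpos : 0 < ∫ x, χ x ^ n ∂μ := by linarith
  refine ⟨hTpos, ?_⟩
  have hnorm : ‖∫ x, ((χ x ^ n : ℝ) : ℂ) ∂μ‖ = ∫ x, χ x ^ n ∂μ := by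
    rw [hre, Complex.norm_real, Real.norm_eq_abs, abs_of_pos hTpos]
  have htri : ‖∫ x, ((χ x ^ n : ℝ) : ℂ) ∂μ‖ ≤
      ‖∫ x, w x * ((χ x ^ n : ℝ) : ℂ) ∂μ‖ +
      ‖(∫ x, w x * ((χ x ^ n : ℝ) : ℂ) ∂μ) - ∫ x, ((χ x ^ n : ℝ) : ℂ) ∂μ‖ := by
    have := norm_sub_le (∫ x, w x * ((χ x ^ n : ℝ) : ℂ) ∂μ)
      ((∫ x, w x * ((χ x ^ n : ℝ) : ℂ) ∂μ) - ∫ x, ((χ x ^ n : ℝ) : ℂ) ∂μ)
    simpa using this
  rw [hnorm] at htri
  linarith

theorem norm_pow_sub_one_le (z : ℂ) (hz : ‖z‖ ≤ 1) (j : ℕ) : ‖z ^ j - 1‖ ≤ j * ‖z - 1‖ := by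
  induction j with
  | zero => simp
  | succ j ih =>
    have e : z ^ (j + 1) - 1 = z ^ j * (z - 1) + (z ^ j - 1) := by ring
    rw [e]
    refine (norm_add_le _ _).trans ?_
    rw [norm_mul, norm_pow]
    have h1 : ‖z‖ ^ j ≤ 1 := pow_le_one₀ (norm_nonneg _) hz
    have h2 : ‖z‖ ^ j * ‖z - 1‖ ≤ 1 * ‖z - 1‖ := mul_le_mul_of_nonneg_right h1 (norm_nonneg _)
    push_cast
    linarith

/-- The form for the powers `w ^ j` of a function with `|w| ≤ 1`, `|w - 1| ≤ ρ |x - 1|`: the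
exponents `j` up to `√n / (4 ρ A)` are allowed. -/
theorem rate_pow (d : ℕ) (hd : 0 < d) : ∃ A : ℕ, 1 ≤ A ∧
    ∀ {I : Type} [Fintype I] [DecidableEq I], Fintype.card I = d →
    ∀ {K : Type} [Group K] [TopologicalSpace K] [IsTopologicalGroup K] [MeasurableSpace K]
      [BorelSpace K] (mat : K →* Matrix I I ℂ), Continuous mat →
      (∀ x, (mat x).conjTranspose * mat x = 1) →
      ∀ (μ : Measure K) [IsProbabilityMeasure μ] [μ.IsMulLeftInvariant],
      (∀ x, 2 - (d : ℝ) ≤ (mat x).trace.re) →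
      ∀ w : K → ℂ, AEStronglyMeasurable w μ → (∀ x, ‖w x‖ ≤ 1) →
      ∀ ρ : ℕ, (∀ x, ‖w x - 1‖ ≤ ρ * Real.sqrt (fro (mat x - 1))) →
      ∀ n j : ℕ, A ^ 2 ≤ n → (4 * ρ * A * j) ^ 2 ≤ n →
      0 < ∫ x, (mat x).trace.re ^ n ∂μ ∧
      (1 / 2) * ∫ x, (mat x).trace.re ^ n ∂μ ≤
        ‖∫ x, w x ^ j * (((mat x).trace.re ^ n : ℝ) : ℂ) ∂μ‖ := by
  obtain ⟨A, hA1, hA⟩ := rate d hd
  refine ⟨A, hA1, ?_⟩
  intro I _ _ hI K _ _ _ _ _ mat hc hu μ _ _ hfix w hw hw1 ρ hρ n j hn hj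
  refine hA hI mat hc hu μ hfix n hn (fun x => w x ^ j) (hw.pow j) ?_ ?_
  · intro x
    have h1 : ‖w x ^ j‖ ≤ 1 := by rw [norm_pow]; exact pow_le_one₀ (norm_nonneg _) (hw1 x)
    have h2 := norm_sub_le (w x ^ j) 1
    rw [norm_one] at h2
    linarith
  · intro x hx
    have hn0 : 0 < n := lt_of_lt_of_le (by positivity) hn
    have hnR : (0 : ℝ) < n := by exact_mod_cast hn0
    have hf0 : 0 ≤ fro (mat x - 1) := fro_nonneg _
    set s : ℝ := Real.sqrt (fro (mat x - 1)) with hs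
    have hs0 : 0 ≤ s := Real.sqrt_nonneg _
    have hs2 : s ^ 2 = fro (mat x - 1) := Real.sq_sqrt hf0
    have h1 := (norm_pow_sub_one_le (w x) (hw1 x) j).trans
      (mul_le_mul_of_nonneg_left (hρ x) (Nat.cast_nonneg j))
    have hjR : (4 * (ρ : ℝ) * A * j) ^ 2 ≤ n := by exact_mod_cast hj
    have hAR : (1 : ℝ) ≤ A := by exact_mod_cast hA1
    have h2 : (4 * ((j : ℝ) * (ρ * s))) ^ 2 ≤ 1 := by
      have e1 : (4 * ((j : ℝ) * (ρ * s))) ^ 2 * ((A : ℝ) ^ 2) =
          (4 * (ρ : ℝ) * A * j) ^ 2 * s ^ 2 := by ring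
      have e2 : (4 * (ρ : ℝ) * A * j) ^ 2 * s ^ 2 ≤ n * s ^ 2 :=
        mul_le_mul_of_nonneg_right hjR (by positivity)
      have e3 : (n : ℝ) * s ^ 2 ≤ (A : ℝ) ^ 2 := by rw [hs2]; exact hx
      have e4 : (4 * ((j : ℝ) * (ρ * s))) ^ 2 * ((A : ℝ) ^ 2) ≤ 1 * (A : ℝ) ^ 2 := by
        rw [e1, one_mul]; exact e2.trans e3
      exact le_of_mul_le_mul_right e4 (by positivity)
    have h3 : 4 * ((j : ℝ) * (ρ * s)) ≤ 1 := by
      have h0 : 0 ≤ 4 * ((j : ℝ) * (ρ * s)) := by positivity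
      nlinarith
    linarith

/-- The count: from `J` layers of size at least `N / 2` for all `J` with `(B J)^2 ≤ n` one gets
`N ≤ C n^(-1/2) a`. -/
theorem rate_count (B n₀ : ℕ) (hB : 1 ≤ B) : ∃ C : ℝ, 0 < C ∧ ∀ (n : ℕ) (N a : ℝ), 1 ≤ n →
    0 ≤ N → N ≤ a → (n₀ ≤ n → ∀ J : ℕ, (B * J) ^ 2 ≤ n → (J : ℝ) * (N / 2) ≤ a) →
    N ≤ C / Real.sqrt n * a := by
  refine ⟨4 * B + n₀ + 1, by positivity, ?_⟩
  intro n N a hn hN hNa hJ
  have ha : 0 ≤ a := hN.trans hNa
  have hnR : (1 : ℝ) ≤ n := by exact_mod_cast hn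
  set s : ℝ := Real.sqrt n with hs
  have hs2 : s ^ 2 = n := Real.sq_sqrt (by linarith)
  have hs1 : 1 ≤ s := by rw [hs, Real.one_le_sqrt]; exact hnR
  have hBR : (1 : ℝ) ≤ B := by exact_mod_cast hB
  rcases le_or_gt (n₀ : ℝ) (n : ℝ) with h | h
  · rcases le_or_gt s (2 * B) with h2 | h2
    · have e1 : 1 ≤ (4 * B + n₀ + 1) / s := by
        rw [le_div_iff₀ (by linarith), one_mul]
        have : (0 : ℝ) ≤ n₀ := by positivity
        linarith
      calc N ≤ a := hNa
        _ = 1 * a := (one_mul a).symm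
        _ ≤ (4 * B + n₀ + 1) / s * a := mul_le_mul_of_nonneg_right e1 ha
    · set J : ℕ := ⌊s / B⌋₊ with hJd
      have hJ1 : (J : ℝ) ≤ s / B := Nat.floor_le (by positivity)
      have hJ2 : s / B < J + 1 := Nat.lt_floor_add_one _
      have hJ3 : (B : ℝ) * J ≤ s := by
        rw [le_div_iff₀ (by linarith)] at hJ1; linarith
      have hJ4 : ((B * J) ^ 2 : ℕ) ≤ n := by
        have : (((B * J) ^ 2 : ℕ) : ℝ) ≤ (n : ℝ) := by
          push_cast
          rw [← hs2]
          exact pow_le_pow_left₀ (by positivity) hJ3 2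
        exact_mod_cast this
      have h3 := hJ (by exact_mod_cast h) J hJ4
      have hJ5 : s / (2 * B) ≤ J := by
        have e1 : (2 : ℝ) < s / B := by rw [lt_div_iff₀ (by linarith)]; exact h2
        have e2 : s / (2 * B) = s / B / 2 := by field_simp
        rw [e2]; linarith
      have h4 : s / (2 * B) * (N / 2) ≤ a :=
        (mul_le_mul_of_nonneg_right hJ5 (by positivity)).trans h3
      have h5 : N ≤ 4 * B / s * a := by
        have e1 : 4 * B / s * (s / (2 * B) * (N / 2)) = N := by field_simp; ring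
        rw [← e1]
        exact mul_le_mul_of_nonneg_left h4 (by positivity)
      refine h5.trans (mul_le_mul_of_nonneg_right ?_ ha)
      apply div_le_div_of_nonneg_right _ (by linarith)
      have : (0 : ℝ) ≤ n₀ := by positivity
      linarith
  · have e1 : 1 ≤ (4 * B + n₀ + 1) / s := by
      rw [le_div_iff₀ (by linarith), one_mul]
      have e2 : s ≤ n := by nlinarith
      linarith
    calc N ≤ a := hNa
      _ = 1 * a := (one_mul a).symm
      _ ≤ (4 * B + n₀ + 1) / s * a := mul_le_mul_of_nonneg_right e1 ha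

end

end Pool.Agent.Lib.MP_361a6f_ag.FL.O54
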